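import Pool.Agent.G02.StmtsR

set_option autoImplicit false

namespace Pool.Agent.G02.H49

open Polynomial WeierstrassCurve.Affine

/-- the general case -/
theorem gen_adl (W : WeierstrassCurve ℚ) [DecidableEq ℚ] (L : Type) [Field L] [CharZero L]
    [Algebra ℚ L] (ρ : L)
    (hρ : 4 * ρ ^ 3 + algebraMap ℚ L W.b₂ * ρ ^ 2 + 2 * algebraMap ℚ L W.b₄ * ρ +
      algebraMap ℚ L W.b₆ = 0) {x₁ y₁ x₂ y₂ : ℚ} (h₁ : W.toAffine.Equation x₁ y₁)
    (h₂ : W.toAffine.Equation x₂ y₂) (hxy : ¬(x₁ = x₂ ∧ y₁ = W.toAffine.negY x₂ y₂)) :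
    IsSquare ((algebraMap ℚ L x₁ - ρ) * (algebraMap ℚ L x₂ - ρ) *
      (algebraMap ℚ L (W.toAffine.addX x₁ x₂ (W.toAffine.slope x₁ x₂ y₁ y₂)) - ρ)) := by
  have e1 := congrArg (Polynomial.eval₂ (algebraMap ℚ L) ρ)
    (WeierstrassCurve.Affine.addPolynomial_slope h₁ h₂ hxy)
  set l := W.toAffine.slope x₁ x₂ y₁ y₂ with hl
  set x₃ := W.toAffine.addX x₁ x₂ l with hx₃
  rw [WeierstrassCurve.Affine.addPolynomial, WeierstrassCurve.Affine.linePolynomial,
    WeierstrassCurve.Affine.polynomial] at e1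
  simp only [eval_sub, eval_add, eval_mul, eval_pow, eval_X, eval_C, eval₂_neg, eval₂_mul,
    eval₂_sub, eval₂_add, eval₂_pow, eval₂_X, eval₂_C] at e1
  rw [WeierstrassCurve.b₂, WeierstrassCurve.b₄, WeierstrassCurve.b₆] at hρ
  simp only [map_add, map_mul, map_pow, map_ofNat] at hρ
  refine ⟨(2 * (algebraMap ℚ L l * (ρ - algebraMap ℚ L x₁) + algebraMap ℚ L y₁) +
    algebraMap ℚ L W.a₁ * ρ + algebraMap ℚ L W.a₃) / 2, ?_⟩
  have h4 : (4 : L) ≠ 0 := by norm_num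
  apply mul_left_cancel₀ h4
  have h5 : 4 * ((2 * (algebraMap ℚ L l * (ρ - algebraMap ℚ L x₁) + algebraMap ℚ L y₁) +
      algebraMap ℚ L W.a₁ * ρ + algebraMap ℚ L W.a₃) / 2 *
      ((2 * (algebraMap ℚ L l * (ρ - algebraMap ℚ L x₁) + algebraMap ℚ L y₁) +
      algebraMap ℚ L W.a₁ * ρ + algebraMap ℚ L W.a₃) / 2)) =
      (2 * (algebraMap ℚ L l * (ρ - algebraMap ℚ L x₁) + algebraMap ℚ L y₁) +
      algebraMap ℚ L W.a₁ * ρ + algebraMap ℚ L W.a₃) ^ 2 := by
    ring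
  rw [h5]
  linear_combination -4 * e1 - hρ

theorem adl : AdlStmt := by
  intro _ W L _ _ _ ρ hirr hρ c d P Q hc hd hP hQ
  have hne : ∀ x : ℚ, algebraMap ℚ L x - ρ ≠ 0 := fun x h => hirr x (sub_eq_zero.1 h).symm
  have hc' : algebraMap ℚ L c ≠ 0 := (_root_.map_ne_zero _).2 hc
  have hd' : algebraMap ℚ L d ≠ 0 := (_root_.map_ne_zero _).2 hd
  cases P with
  | zero =>
    rw [← WeierstrassCurve.Affine.Point.zero_def, zero_add]
    have h1 : IsSquare (algebraMap ℚ L c) := hP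
    cases Q with
    | zero =>
      have h2 : IsSquare (algebraMap ℚ L d) := hQ
      show IsSquare (algebraMap ℚ L (c * d))
      rw [map_mul]
      exact h1.mul h2
    | some x y h =>
      have h2 : IsSquare (algebraMap ℚ L d * (algebraMap ℚ L x - ρ)) := hQ
      show IsSquare (algebraMap ℚ L (c * d) * (algebraMap ℚ L x - ρ))
      rw [map_mul, mul_assoc]
      exact h1.mul h2
  | some x₁ y₁ h₁ =>
    have h1 : IsSquare (algebraMap ℚ L c * (algebraMap ℚ L x₁ - ρ)) := hP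
    cases Q with
    | zero =>
      rw [← WeierstrassCurve.Affine.Point.zero_def, add_zero]
      have h2 : IsSquare (algebraMap ℚ L d) := hQ
      show IsSquare (algebraMap ℚ L (c * d) * (algebraMap ℚ L x₁ - ρ))
      have h3 := h2.mul h1
      have h4 : algebraMap ℚ L (c * d) * (algebraMap ℚ L x₁ - ρ) =
          algebraMap ℚ L d * (algebraMap ℚ L c * (algebraMap ℚ L x₁ - ρ)) := by
        rw [map_mul]
        ring
      rw [h4]
      exact h3
    | some x₂ y₂ h₂ =>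
      have h2 : IsSquare (algebraMap ℚ L d * (algebraMap ℚ L x₂ - ρ)) := hQ
      by_cases hxy : x₁ = x₂ ∧ y₁ = W.toAffine.negY x₂ y₂
      · rw [WeierstrassCurve.Affine.Point.add_of_Y_eq hxy.1 hxy.2]
        show IsSquare (algebraMap ℚ L (c * d))
        rw [hxy.1] at h1
        obtain ⟨r, hr⟩ := h1.mul h2
        refine ⟨r / (algebraMap ℚ L x₂ - ρ), ?_⟩
        rw [div_mul_div_comm, ← hr, eq_div_iff (mul_ne_zero (hne x₂) (hne x₂)), map_mul]
        ring
      · rw [WeierstrassCurve.Affine.Point.add_some hxy (h₁ := h₁) (h₂ := h₂)]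
        show IsSquare (algebraMap ℚ L (c * d) *
          (algebraMap ℚ L (W.toAffine.addX x₁ x₂ (W.toAffine.slope x₁ x₂ y₁ y₂)) - ρ))
        obtain ⟨r, hr⟩ := h1.mul h2
        obtain ⟨t, ht⟩ := gen_adl W L ρ hρ h₁.1 h₂.1 hxy
        refine ⟨r * t / ((algebraMap ℚ L x₁ - ρ) * (algebraMap ℚ L x₂ - ρ)), ?_⟩
        rw [div_mul_div_comm, eq_div_iff (mul_ne_zero (mul_ne_zero (hne x₁) (hne x₂))
          (mul_ne_zero (hne x₁) (hne x₂))), map_mul]
        set X₃ := algebraMap ℚ L (W.toAffine.addX x₁ x₂ (W.toAffine.slope x₁ x₂ y₁ y₂))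
        linear_combination (algebraMap ℚ L x₁ - ρ) * (algebraMap ℚ L x₂ - ρ) * (X₃ - ρ) * hr +
          r * r * ht

end Pool.Agent.G02.H49
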