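import Pool.Agent.G02.StmtsR

set_option autoImplicit false

namespace Pool.Agent.G02.H49

open WeierstrassCurve WeierstrassCurve.Affine

theorem some_congr {K : Type} [Field K] {W : WeierstrassCurve K} {x x' y y' : K}
    (hx : x = x') (hy : y = y') (h : W.toAffine.Nonsingular x y)
    (h' : W.toAffine.Nonsingular x' y') : Point.some x y h = Point.some x' y' h' := by
  subst hx
  subst hy
  rfl

/-- the halving formula -/
theorem halve1 {K : Type} [Field K] [CharZero K] [DecidableEq K] (W : WeierstrassCurve K)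
    {e a b r s x₀ y₀ : K} (hR : Rt1 W e a b) (hb : b = ((r ^ 2 - a) ^ 2 - 4 * (s * r) ^ 2) / 4)
    (hb0 : b ≠ 0) (hr : r ≠ 0) (hx₀ : x₀ = e + s ^ 2)
    (hy₀ : y₀ = s * (r ^ 2 - a - 2 * s ^ 2) / 2 - (W.a₁ * x₀ + W.a₃) / 2)
    (hP : W.toAffine.Nonsingular x₀ y₀) :
    ∃ Q : W.toAffine.Point, Point.some x₀ y₀ hP = Q + Q := by
  have two : (2 : K) ≠ 0 := two_ne_zero
  have four : (4 : K) ≠ 0 := by exact_mod_cast (by norm_num : (4 : ℕ) ≠ 0)
  obtain ⟨h2, h4, h6⟩ := hR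
  unfold WeierstrassCurve.b₂ at h2
  unfold WeierstrassCurve.b₄ at h4
  unfold WeierstrassCurve.b₆ at h6
  have e2 : W.a₂ = a - 3 * e - W.a₁ ^ 2 / 4 := by
    field_simp
    linear_combination h2
  have e4 : W.a₄ = 3 * e ^ 2 - 2 * a * e + b - W.a₁ * W.a₃ / 2 := by
    field_simp
    linear_combination h4
  have e6 : W.a₆ = -(e ^ 3 - a * e ^ 2 + b * e) - W.a₃ ^ 2 / 4 := by
    field_simp
    linear_combination h6
  obtain ⟨X, hX⟩ : ∃ X, X = (r ^ 2 - a + 2 * (s * r)) / 2 := ⟨_, rfl⟩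
  have hXb : X * ((r ^ 2 - a - 2 * (s * r)) / 2) = b := by
    rw [hX, hb]
    ring
  have hX0 : X ≠ 0 := by
    intro h
    rw [h, zero_mul] at hXb
    exact hb0 hXb.symm
  obtain ⟨x, hx⟩ : ∃ x, x = e + X := ⟨_, rfl⟩
  obtain ⟨y, hy⟩ : ∃ y, y = r * X - (W.a₁ * x + W.a₃) / 2 := ⟨_, rfl⟩
  have hY0 : r * X ≠ 0 := mul_ne_zero hr hX0
  have hneg : y - (-y - W.a₁ * x - W.a₃) = 2 * (r * X) := by
    rw [hy]
    field_simp
    ring
  have hyn : y ≠ W.toAffine.negY x y := by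
    intro h
    have h1 : y - (-y - W.a₁ * x - W.a₃) = 0 := sub_eq_zero.2 h
    rw [hneg] at h1
    exact (mul_ne_zero two hY0) h1
  have hE : W.toAffine.Equation x y := by
    rw [Affine.equation_iff']
    rw [e2, e4, e6, hy, hx, hb, hX]
    field_simp
    ring
  have hN : W.toAffine.Nonsingular x y := by
    rw [Affine.nonsingular_iff]
    exact ⟨hE, Or.inr hyn⟩
  have hs : W.toAffine.slope x x y y = (r + s) - W.a₁ / 2 := by
    rw [Affine.slope_of_Y_ne rfl hyn]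
    have h1 : y - W.toAffine.negY x y = 2 * (r * X) := hneg
    rw [h1, div_eq_iff (mul_ne_zero two hY0), e2, e4, hy, hx, hb, hX]
    field_simp
    ring
  have hXX : W.toAffine.addX x x (W.toAffine.slope x x y y) = x₀ := by
    rw [hs]
    unfold Affine.addX
    rw [e2, hx, hx₀, hX]
    field_simp
    ring
  have hYY : W.toAffine.addY x x y (W.toAffine.slope x x y y) = y₀ := by
    unfold Affine.addY Affine.negAddY Affine.negY
    rw [hXX, hs, hy₀, hy, hx, hx₀, hX]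
    field_simp
    ring
  refine ⟨Point.some x y hN, ?_⟩
  rw [Affine.Point.add_self_of_Y_ne hyn]
  exact some_congr hXX.symm hYY.symm _ _

theorem hd1 : Hd1Stmt := by
  intro K _ _ _ W e a b hR hb hab x y s h hs hxs hsq
  obtain ⟨r, hr⟩ := hsq
  have two : (2 : K) ≠ 0 := two_ne_zero
  have four : (4 : K) ≠ 0 := by exact_mod_cast (by norm_num : (4 : ℕ) ≠ 0)
  have hx : x = e + s ^ 2 := by linear_combination hxs
  -- `2 Y = s (r² - a - 2 s²)`
  have hY : 2 * y + W.a₁ * x + W.a₃ = s * (r ^ 2 - a - 2 * s ^ 2) := by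
    have h1 : (2 * y + W.a₁ * x + W.a₃) / s = r ^ 2 - a - 2 * s ^ 2 := by
      linear_combination hr
    rw [div_eq_iff hs] at h1
    rw [h1]
    ring
  have hE := (Affine.equation_iff' _ _).1 h.1
  have hR' := hR
  obtain ⟨h2, h4, h6⟩ := hR'
  unfold WeierstrassCurve.b₂ at h2
  unfold WeierstrassCurve.b₄ at h4
  unfold WeierstrassCurve.b₆ at h6
  -- `4 Y² = 4 X (X² + a X + b)`
  have h7 : (2 * y + W.a₁ * x + W.a₃) ^ 2 = 4 * (s ^ 2 * (s ^ 4 + a * s ^ 2 + b)) := by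
    have h8 : (2 * y + W.a₁ * x + W.a₃) ^ 2 =
        4 * ((x - e) * ((x - e) ^ 2 + a * (x - e) + b)) := by
      linear_combination 4 * hE + x ^ 2 * h2 + 2 * x * h4 + h6
    rw [h8, hxs]
    ring
  have h9 : (r ^ 2 - a - 2 * s ^ 2) ^ 2 = 4 * (s ^ 4 + a * s ^ 2 + b) := by
    rw [hY] at h7
    apply mul_left_cancel₀ (pow_ne_zero 2 hs)
    linear_combination h7
  have hb' : b = ((r ^ 2 - a) ^ 2 - 4 * (s * r) ^ 2) / 4 := by
    field_simp
    linear_combination -h9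
  have hr0 : r ≠ 0 := by
    intro h0
    apply hab
    rw [hb', h0]
    ring
  refine halve1 W hR hb' hb hr0 hx ?_ h
  field_simp
  linear_combination hY

end Pool.Agent.G02.H49
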